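import Mathlib

/-!
Random signs: for complex numbers `z s t` there are signs such that `|∑_s ± z s t|²` is at least one half
of its mean value `∑_s |z s t|²` for at least one twelfth of the `t`.
-/

set_option autoImplicit false

namespace Pool.Agent.Q261.DQ

open Finset

variable {ι κ : Type*} [DecidableEq ι]

/-- the sign function of a set -/
def sg (u : Finset ι) (s : ι) : ℝ := if s ∈ u then 1 else -1

lemma sg_eq (u : Finset ι) (s : ι) : sg u s = 1 ∨ sg u s = -1 := by
  unfold sg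
  split_ifs
  · exact Or.inl rfl
  · exact Or.inr rfl

/-- signed sums -/
noncomputable def sum_sg (S u : Finset ι) (z : ι → ℂ) : ℂ := ∑ s ∈ S, (sg u s : ℂ) * z s

lemma sum_sg_insert (S u : Finset ι) (a : ι) (ha : a ∉ S) (hu : u ⊆ S) (z : ι → ℂ) :
    sum_sg (insert a S) u z = sum_sg S u z - z a ∧
    sum_sg (insert a S) (insert a u) z = sum_sg S u z + z a := by
  have hau : a ∉ u := fun h => ha (hu h)
  constructor
  · unfold sum_sg
    rw [sum_insert ha]
    have : sg u a = -1 := by unfold sg; rw [if_neg hau]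
    rw [this]
    push_cast
    ring
  · unfold sum_sg
    rw [sum_insert ha]
    have h1 : sg (insert a u) a = 1 := by unfold sg; rw [if_pos (mem_insert_self _ _)]
    rw [h1]
    have h2 : ∑ s ∈ S, (sg (insert a u) s : ℂ) * z s = ∑ s ∈ S, (sg u s : ℂ) * z s := by
      apply sum_congr rfl
      intro s hs
      congr 2
      unfold sg
      have : s ≠ a := fun h => ha (h ▸ hs)
      simp [mem_insert, this]
    rw [h2]
    push_cast
    ring

lemma par2 (x z : ℂ) : ‖x - z‖ ^ 2 + ‖x + z‖ ^ 2 = 2 * ‖x‖ ^ 2 + 2 * ‖z‖ ^ 2 := by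
  have := parallelogram_law_with_norm ℝ x z
  nlinarith

lemma par4 (x z : ℂ) : ‖x - z‖ ^ 4 + ‖x + z‖ ^ 4 ≤ 2 * ‖x‖ ^ 4 + 12 * ‖z‖ ^ 2 * ‖x‖ ^ 2 + 2 * ‖z‖ ^ 4 := by
  have h := par2 x z
  have h1 : ‖x - z‖ ^ 2 = ‖x‖ ^ 2 + ‖z‖ ^ 2 - 2 * (x.re * z.re + x.im * z.im) := by
    rw [← Complex.normSq_eq_norm_sq, ← Complex.normSq_eq_norm_sq, ← Complex.normSq_eq_norm_sq,
      Complex.normSq_apply, Complex.normSq_apply, Complex.normSq_apply]
    simp only [Complex.sub_re, Complex.sub_im]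
    ring
  have h2 : ‖x + z‖ ^ 2 = ‖x‖ ^ 2 + ‖z‖ ^ 2 + 2 * (x.re * z.re + x.im * z.im) := by linarith
  have h3 : (x.re * z.re + x.im * z.im) ^ 2 ≤ ‖x‖ ^ 2 * ‖z‖ ^ 2 := by
    rw [← Complex.normSq_eq_norm_sq, ← Complex.normSq_eq_norm_sq, Complex.normSq_apply,
      Complex.normSq_apply]
    nlinarith [sq_nonneg (x.re * z.im - x.im * z.re)]
  have e1 : ‖x - z‖ ^ 4 = (‖x - z‖ ^ 2) ^ 2 := by ring
  have e2 : ‖x + z‖ ^ 4 = (‖x + z‖ ^ 2) ^ 2 := by ring
  rw [e1, e2, h1, h2]
  nlinarith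

theorem moment2 (S : Finset ι) (z : ι → ℂ) :
    ∑ u ∈ S.powerset, ‖sum_sg S u z‖ ^ 2 = 2 ^ S.card * ∑ s ∈ S, ‖z s‖ ^ 2 := by
  induction S using Finset.induction_on with
  | empty => simp [sum_sg]
  | insert a S ha ih =>
    rw [sum_powerset_insert ha, ← sum_add_distrib]
    have h1 : ∀ u ∈ S.powerset, ‖sum_sg (insert a S) u z‖ ^ 2 + ‖sum_sg (insert a S) (insert a u) z‖ ^ 2 =
        2 * ‖sum_sg S u z‖ ^ 2 + 2 * ‖z a‖ ^ 2 := by
      intro u hu
      obtain ⟨e1, e2⟩ := sum_sg_insert S u a ha (mem_powerset.1 hu) z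
      rw [e1, e2, par2]
    rw [sum_congr rfl h1, sum_add_distrib, ← mul_sum, ih,
      sum_const, card_powerset, card_insert_of_notMem ha, nsmul_eq_mul, sum_insert ha]
    push_cast
    ring

theorem moment4 (S : Finset ι) (z : ι → ℂ) :
    ∑ u ∈ S.powerset, ‖sum_sg S u z‖ ^ 4 ≤ 2 ^ S.card * (3 * (∑ s ∈ S, ‖z s‖ ^ 2) ^ 2) := by
  induction S using Finset.induction_on with
  | empty => simp [sum_sg]
  | insert a S ha ih =>
    rw [sum_powerset_insert ha, ← sum_add_distrib]
    have h1 : ∀ u ∈ S.powerset, ‖sum_sg (insert a S) u z‖ ^ 4 + ‖sum_sg (insert a S) (insert a u) z‖ ^ 4 ≤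
        2 * ‖sum_sg S u z‖ ^ 4 + 12 * ‖z a‖ ^ 2 * ‖sum_sg S u z‖ ^ 2 + 2 * ‖z a‖ ^ 4 := by
      intro u hu
      obtain ⟨e1, e2⟩ := sum_sg_insert S u a ha (mem_powerset.1 hu) z
      rw [e1, e2]
      exact par4 _ _
    refine (sum_le_sum h1).trans ?_
    have h3 := moment2 S z
    rw [sum_add_distrib, sum_add_distrib, ← mul_sum, ← mul_sum, h3, sum_const, card_powerset,
      card_insert_of_notMem ha, nsmul_eq_mul, sum_insert ha]
    push_cast
    have h4 : (0 : ℝ) < 2 ^ S.card := by positivity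
    have h5 : 0 ≤ 2 ^ S.card * ‖z a‖ ^ 4 := by positivity
    have e : 2 ^ (S.card + 1) * (3 * (‖z a‖ ^ 2 + ∑ s ∈ S, ‖z s‖ ^ 2) ^ 2) =
        2 * (2 ^ S.card * (3 * (∑ s ∈ S, ‖z s‖ ^ 2) ^ 2)) +
        12 * ‖z a‖ ^ 2 * (2 ^ S.card * ∑ s ∈ S, ‖z s‖ ^ 2) + 6 * (2 ^ S.card * ‖z a‖ ^ 4) := by
      rw [pow_succ]
      ring
    rw [e]
    linarith

/-- many large values for a suitable choice of the signs -/
theorem exists_signs (S : Finset ι) (W : Finset κ) (z : ι → κ → ℂ) :
    ∃ u : Finset ι, (W.card : ℝ) ≤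
      12 * ((W.filter (fun t => (∑ s ∈ S, ‖z s t‖ ^ 2) / 2 ≤ ‖∑ s ∈ S, (sg u s : ℂ) * z s t‖ ^ 2)).card : ℝ) := by
  classical
  by_cases hW : W = ∅
  · refine ⟨∅, ?_⟩
    subst hW
    simp
  have hw : (0 : ℝ) < W.card := by exact_mod_cast card_pos.2 (nonempty_iff_ne_empty.2 hW)
  by_contra hcon
  push Not at hcon
  -- normalisation of the mean values
  set E : κ → ℝ := fun t => ∑ s ∈ S, ‖z s t‖ ^ 2 with hE
  have hE0 : ∀ t, 0 ≤ E t := fun t => sum_nonneg fun _ _ => sq_nonneg _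
  set X : Finset ι → κ → ℝ := fun u t => ‖∑ s ∈ S, (sg u s : ℂ) * z s t‖ with hX
  -- for every `t` at least one twelfth of the sign vectors are good
  have key : ∀ t : κ, (2 : ℝ) ^ S.card / 12 ≤ ((S.powerset.filter (fun u => E t / 2 ≤ X u t ^ 2)).card : ℝ) := by
    intro t
    have h2pos : (0 : ℝ) < 2 ^ S.card := by positivity
    rcases (hE0 t).eq_or_lt with h0 | h0
    · have : S.powerset.filter (fun u => E t / 2 ≤ X u t ^ 2) = S.powerset := by
        apply filter_true_of_mem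
        intro u _
        rw [← h0, zero_div]
        exact sq_nonneg _
      rw [this, card_powerset]
      push_cast
      linarith
    · set P := S.powerset.filter (fun u => E t / 2 ≤ X u t ^ 2) with hP
      have hX2 : ∑ u ∈ S.powerset, X u t ^ 2 = 2 ^ S.card * E t := moment2 S (fun s => z s t)
      have hX4 : ∑ u ∈ S.powerset, X u t ^ 4 ≤ 2 ^ S.card * (3 * E t ^ 2) := moment4 S (fun s => z s t)
      have hlow : 2 ^ S.card * E t / 2 ≤ ∑ u ∈ P, X u t ^ 2 := by
        have h1 := sum_filter_add_sum_filter_not S.powerset (fun u => E t / 2 ≤ X u t ^ 2)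
          (fun u => X u t ^ 2)
        have h2 : ∑ u ∈ S.powerset.filter (fun u => ¬ E t / 2 ≤ X u t ^ 2), X u t ^ 2 ≤
            2 ^ S.card * E t / 2 := by
          calc _ ≤ ∑ u ∈ S.powerset.filter (fun u => ¬ E t / 2 ≤ X u t ^ 2), E t / 2 := by
                apply sum_le_sum
                intro p hp
                have := (mem_filter.1 hp).2
                linarith
            _ ≤ ∑ u ∈ S.powerset, E t / 2 :=
                sum_le_sum_of_subset_of_nonneg (filter_subset _ _) (fun _ _ _ => by positivity)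
            _ = _ := by
                rw [sum_const, card_powerset, nsmul_eq_mul]
                push_cast
                ring
        rw [hX2] at h1
        linarith
      have hCS : (∑ u ∈ P, X u t ^ 2) ^ 2 ≤ P.card * ∑ u ∈ P, X u t ^ 4 := by
        have := sum_mul_sq_le_sq_mul_sq P (fun _ => (1 : ℝ)) (fun u => X u t ^ 2)
        simp only [one_mul, one_pow, sum_const, nsmul_eq_mul, mul_one] at this
        refine this.trans (le_of_eq ?_)
        congr 1
        apply sum_congr rfl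
        intro p _
        ring
      have hP4 : ∑ u ∈ P, X u t ^ 4 ≤ 2 ^ S.card * (3 * E t ^ 2) :=
        (sum_le_sum_of_subset_of_nonneg (filter_subset _ _) (fun _ _ _ => by positivity)).trans hX4
      have hfin : (2 ^ S.card * E t / 2) ^ 2 ≤ P.card * (2 ^ S.card * (3 * E t ^ 2)) := by
        calc (2 ^ S.card * E t / 2) ^ 2 ≤ (∑ u ∈ P, X u t ^ 2) ^ 2 :=
              pow_le_pow_left₀ (by positivity) hlow 2
          _ ≤ P.card * ∑ u ∈ P, X u t ^ 4 := hCS
          _ ≤ P.card * (2 ^ S.card * (3 * E t ^ 2)) :=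
              mul_le_mul_of_nonneg_left hP4 (Nat.cast_nonneg _)
      have hq : 0 < 2 ^ S.card * (3 * E t ^ 2) := by positivity
      have e : (2 ^ S.card * E t / 2) ^ 2 = 2 ^ S.card / 12 * (2 ^ S.card * (3 * E t ^ 2)) := by ring
      rw [e] at hfin
      exact le_of_mul_le_mul_right hfin hq
  -- double counting
  have h3 : S.powerset.Nonempty := ⟨∅, empty_mem_powerset S⟩
  have hA : ∑ u ∈ S.powerset, ((W.filter (fun t => E t / 2 ≤ X u t ^ 2)).card : ℝ) <
      2 ^ S.card * (W.card / 12) := by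
    calc _ < ∑ u ∈ S.powerset, (W.card : ℝ) / 12 := by
          apply sum_lt_sum_of_nonempty h3
          intro u _
          have := hcon u
          linarith
      _ = _ := by
        rw [sum_const, card_powerset, nsmul_eq_mul]
        push_cast
        ring
  have hB : ∑ u ∈ S.powerset, ((W.filter (fun t => E t / 2 ≤ X u t ^ 2)).card : ℝ) =
      ∑ t ∈ W, ((S.powerset.filter (fun u => E t / 2 ≤ X u t ^ 2)).card : ℝ) := by
    simp_rw [card_filter]
    push_cast
    exact sum_comm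
  have hC : 2 ^ S.card * ((W.card : ℝ) / 12) ≤
      ∑ t ∈ W, ((S.powerset.filter (fun u => E t / 2 ≤ X u t ^ 2)).card : ℝ) := by
    calc 2 ^ S.card * ((W.card : ℝ) / 12) = ∑ t ∈ W, (2 : ℝ) ^ S.card / 12 := by
          rw [sum_const, nsmul_eq_mul]
          ring
      _ ≤ _ := sum_le_sum fun t _ => key t
  rw [hB] at hA
  linarith

end Pool.Agent.Q261.DQ
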