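import Pool.Agent.Q261.DP.Phase
import Pool.Agent.Q261.DQ.Signs

/-!
Polynomials with coefficients `0`, `1`, `-1` supported on a given set `I`, which are constant up to a phase
on the progressions `{n ∈ I : n ≡ a mod s, n / s ∈ [m, m + J]}`.
-/

set_option autoImplicit false

namespace Pool.Agent.Q261.DQ

open Finset Pool.Agent.Q261.DP

/-- the pairs `(n, s)` such that `n` belongs to a block of `s` -/
def EE (I : Finset ℕ) (S J m : ℕ) : Finset (ℕ × ℕ) :=
  (I ×ˢ Ico S (2 * S)).filter (fun p => m ≤ p.1 / p.2 ∧ p.1 / p.2 ≤ m + J)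

/-- averaging over `m` -/
theorem exists_m (N S J : ℕ) (I : Finset ℕ) (hI : I ⊆ Icc N (2 * N)) (hS : 1 ≤ S) (hJ : 1 ≤ J)
    (h1 : 8 * S ^ 2 * (J + 1) ≤ N) :
    ∃ m : ℕ, I.card * S * (J + 1) ≤ (EE I S J m).card * (2 * N / S + 1) := by
  classical
  by_contra hcon
  push Not at hcon
  have hsum : ∑ m ∈ range (2 * N / S + 1), (EE I S J m).card = I.card * S * (J + 1) := by
    unfold EE
    simp_rw [card_filter]
    rw [sum_comm]
    have : ∀ p ∈ I ×ˢ Ico S (2 * S), ∑ m ∈ range (2 * N / S + 1),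
        (if m ≤ p.1 / p.2 ∧ p.1 / p.2 ≤ m + J then 1 else 0) = J + 1 := by
      intro p hp
      rw [mem_product, mem_Ico] at hp
      obtain ⟨hp1, hp2, hp3⟩ := hp
      have hn := mem_Icc.1 (hI hp1)
      rw [← card_filter]
      have hJq : J ≤ p.1 / p.2 := by
        rw [Nat.le_div_iff_mul_le (by omega)]
        calc J * p.2 ≤ (J + 1) * (2 * S) := Nat.mul_le_mul (by omega) (by omega)
          _ ≤ 8 * S ^ 2 * (J + 1) := by
              have h3 : S ≤ S ^ 2 := Nat.le_self_pow (by norm_num) S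
              have h4 := Nat.mul_le_mul_right (J + 1) h3
              nlinarith
          _ ≤ p.1 := h1.trans hn.1
      have hq2 : p.1 / p.2 ≤ 2 * N / S := by
        calc p.1 / p.2 ≤ (2 * N) / p.2 := Nat.div_le_div_right hn.2
          _ ≤ 2 * N / S := Nat.div_le_div_left hp2 (by omega)
      have : (range (2 * N / S + 1)).filter (fun m => m ≤ p.1 / p.2 ∧ p.1 / p.2 ≤ m + J) =
          Icc (p.1 / p.2 - J) (p.1 / p.2) := by
        ext m
        rw [mem_filter, mem_range, mem_Icc]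
        omega
      rw [this, Nat.card_Icc]
      omega
    rw [sum_congr rfl this, sum_const, card_product, Nat.card_Ico, smul_eq_mul]
    have : 2 * S - S = S := by omega
    rw [this]
  have hlt : ∑ m ∈ range (2 * N / S + 1), (EE I S J m).card * (2 * N / S + 1) <
      ∑ m ∈ range (2 * N / S + 1), I.card * S * (J + 1) := by
    apply sum_lt_sum_of_nonempty
    · exact ⟨0, mem_range.2 (Nat.succ_pos _)⟩
    · intro m _
      exact hcon m
  rw [← sum_mul, hsum, sum_const, card_range, smul_eq_mul] at hlt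
  linarith

/-- the index set of the clusters -/
def CC (S : ℕ) : Finset (ℕ × ℕ) := Ico S (2 * S) ×ˢ range (2 * S)

/-- the clusters -/
def KK (I : Finset ℕ) (J m : ℕ) (c : ℕ × ℕ) : Finset ℕ :=
  I.filter (fun n => (m ≤ n / c.1 ∧ n / c.1 ≤ m + J) ∧ n % c.1 = c.2)

lemma sum_clusters {A : Type*} [AddCommMonoid A] (I : Finset ℕ) (S J m : ℕ) (f : ℕ → ℕ × ℕ → A) :
    ∑ c ∈ CC S, ∑ n ∈ KK I J m c, f n c =
      ∑ n ∈ I, ∑ s ∈ Ico S (2 * S), (if m ≤ n / s ∧ n / s ≤ m + J then f n (s, n % s) else 0) := by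
  classical
  unfold CC KK
  rw [sum_product, sum_comm (s := I)]
  apply sum_congr rfl
  intro s hs
  rw [mem_Ico] at hs
  rw [← sum_filter, ← sum_fiberwise_of_maps_to (s := I.filter (fun n => m ≤ n / s ∧ n / s ≤ m + J))
    (t := range (2 * S)) (g := fun n => n % s)]
  · apply sum_congr rfl
    intro a _
    rw [filter_filter]
    apply sum_congr rfl
    intro n hn
    rw [(mem_filter.1 hn).2.2]
  · intro n _
    rw [mem_range]
    have := Nat.mod_lt n (show 0 < s by omega)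
    omega

/-- the coefficients -/
noncomputable def co (I : Finset ℕ) (S J m : ℕ) (u : Finset (ℕ × ℕ)) (n : ℕ) : ℝ :=
  ∑ s ∈ Ico S (2 * S), (if m ≤ n / s ∧ n / s ≤ m + J then (if n ∈ I then sg u (s, n % s) else 0) else 0)

lemma blocks_disjoint (S J m n s s' : ℕ) (hm : 2 * S * (J + 1) ≤ m) (hs : s ∈ Ico S (2 * S)) (hs' : s' ∈ Ico S (2 * S))
    (h : m ≤ n / s ∧ n / s ≤ m + J) (h' : m ≤ n / s' ∧ n / s' ≤ m + J) : s = s' := by
  have key : ∀ x y : ℕ, x ∈ Ico S (2 * S) → y ∈ Ico S (2 * S) → x < y → n / x ≤ m + J → m ≤ n / y → False := by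
    intro x y hx hy hxy h1 h2
    rw [mem_Ico] at hx hy
    have h3 : n < x * (m + J + 1) := by
      have := Nat.lt_mul_div_succ n (show 0 < x by omega)
      calc n < x * (n / x + 1) := this
        _ ≤ x * (m + J + 1) := Nat.mul_le_mul_left _ (by omega)
    have h4 : m * y ≤ n := (Nat.le_div_iff_mul_le (by omega)).1 h2
    have h5 : m * (x + 1) ≤ m * y := Nat.mul_le_mul_left _ (by omega)
    have h6 : x * (J + 1) ≤ 2 * S * (J + 1) := Nat.mul_le_mul_right _ (by omega)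
    nlinarith
  rcases Nat.lt_trichotomy s s' with h1 | h1 | h1
  · exact (key s s' hs hs' h1 h.2 h'.1).elim
  · exact h1
  · exact (key s' s hs' hs h1 h'.2 h.1).elim

lemma co_cases (I : Finset ℕ) (S J m : ℕ) (u : Finset (ℕ × ℕ)) (n : ℕ) (hm : 2 * S * (J + 1) ≤ m) :
    (co I S J m u n = 0 ∨ co I S J m u n = 1 ∨ co I S J m u n = -1) ∧
    co I S J m u n ^ 2 = ∑ s ∈ Ico S (2 * S), (if m ≤ n / s ∧ n / s ≤ m + J then (if n ∈ I then (1 : ℝ) else 0) else 0) := by
  classical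
  by_cases hn : n ∈ I
  · by_cases h : ∃ s ∈ Ico S (2 * S), m ≤ n / s ∧ n / s ≤ m + J
    · obtain ⟨s, hs, hs2⟩ := h
      have h1 : ∀ (f : ℕ → ℝ), ∑ x ∈ Ico S (2 * S), (if m ≤ n / x ∧ n / x ≤ m + J then f x else 0) = f s := by
        intro f
        rw [sum_eq_single s]
        · rw [if_pos hs2]
        · intro y hy hys
          rw [if_neg]
          intro h3
          exact hys (blocks_disjoint S J m n y s hm hy hs h3 hs2)
        · intro h3
          exact absurd hs h3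
      have h2 : co I S J m u n = sg u (s, n % s) := by
        unfold co
        rw [h1 (fun x => if n ∈ I then sg u (x, n % x) else 0), if_pos hn]
      rw [h1 (fun _ => if n ∈ I then (1 : ℝ) else 0), if_pos hn, h2]
      rcases sg_eq u (s, n % s) with h3 | h3 <;> rw [h3] <;> norm_num
    · push Not at h
      have h1 : ∀ (f : ℕ → ℝ), ∑ x ∈ Ico S (2 * S), (if m ≤ n / x ∧ n / x ≤ m + J then f x else 0) = 0 := by
        intro f
        apply sum_eq_zero
        intro x hx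
        rw [if_neg]
        intro h3
        have := h x hx h3.1
        omega
      have h2 : co I S J m u n = 0 := by
        unfold co
        exact h1 (fun x => if n ∈ I then sg u (x, n % x) else 0)
      rw [h1 (fun _ => if n ∈ I then (1 : ℝ) else 0), h2]
      simp
  · have h2 : co I S J m u n = 0 := by
      unfold co
      apply sum_eq_zero
      intro x _
      rw [if_neg hn]
      simp
    rw [h2]
    simp [hn]

lemma co_off (I : Finset ℕ) (S J m : ℕ) (u : Finset (ℕ × ℕ)) (n : ℕ) (hn : n ∉ I) :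
    co I S J m u n = 0 := by
  unfold co
  apply sum_eq_zero
  intro x _
  rw [if_neg hn]
  simp

lemma sum_co_sq (N : ℕ) (I : Finset ℕ) (hI : I ⊆ Icc N (2 * N)) (S J m : ℕ) (u : Finset (ℕ × ℕ)) (hm : 2 * S * (J + 1) ≤ m) :
    ∑ n ∈ Icc N (2 * N), co I S J m u n ^ 2 = ((EE I S J m).card : ℝ) := by
  classical
  have h1 : ∑ n ∈ Icc N (2 * N), co I S J m u n ^ 2 = ∑ n ∈ I, co I S J m u n ^ 2 := by
    symm
    apply sum_subset hI
    intro n _ hn
    rw [co_off I S J m u n hn]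
    norm_num
  rw [h1]
  unfold EE
  rw [card_filter]
  push_cast
  rw [sum_product]
  apply sum_congr rfl
  intro n hn
  rw [(co_cases I S J m u n hm).2]
  apply sum_congr rfl
  intro s _
  rw [if_pos hn]

lemma sum_KK (I : Finset ℕ) (S J m : ℕ) : ∑ c ∈ CC S, ((KK I J m c).card : ℝ) = ((EE I S J m).card : ℝ) := by
  classical
  have h := sum_clusters I S J m (fun _ _ => (1 : ℝ))
  simp only [sum_const, nsmul_eq_mul, mul_one] at h
  rw [h]
  unfold EE
  rw [card_filter]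
  push_cast
  rw [sum_product]

/-- the cluster sums -/
noncomputable def zz (I : Finset ℕ) (J m : ℕ) (c : ℕ × ℕ) (t : ℝ) : ℂ := ∑ n ∈ KK I J m c, ph t n

lemma D_eq (N : ℕ) (I : Finset ℕ) (hI : I ⊆ Icc N (2 * N)) (S J m : ℕ) (u : Finset (ℕ × ℕ)) (t : ℝ) :
    ∑ n ∈ Icc N (2 * N), (co I S J m u n : ℂ) * ph t n = ∑ c ∈ CC S, (sg u c : ℂ) * zz I J m c t := by
  classical
  have h1 : ∑ n ∈ Icc N (2 * N), (co I S J m u n : ℂ) * ph t n = ∑ n ∈ I, (co I S J m u n : ℂ) * ph t n := by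
    symm
    apply sum_subset hI
    intro n _ hn
    rw [co_off I S J m u n hn]
    simp
  rw [h1]
  have h2 := sum_clusters I S J m (fun n c => (sg u c : ℂ) * ph t n)
  unfold zz
  simp_rw [mul_sum]
  rw [h2]
  apply sum_congr rfl
  intro n hn
  unfold co
  push_cast
  rw [sum_mul]
  apply sum_congr rfl
  intro s _
  rw [if_pos hn]
  split_ifs <;> simp

lemma norm_ge_of_phase (K : Finset ℕ) (f : ℕ → ℝ) (Φ : ℝ)
    (h : ∀ n ∈ K, ∃ k : ℤ, |f n - Φ - 2 * Real.pi * k| ≤ 1) :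
    (K.card : ℝ) / 2 ≤ ‖∑ n ∈ K, Complex.exp ((f n : ℂ) * Complex.I)‖ := by
  have h1 : ‖∑ n ∈ K, Complex.exp ((f n : ℂ) * Complex.I)‖ =
      ‖∑ n ∈ K, Complex.exp (((f n - Φ : ℝ) : ℂ) * Complex.I)‖ := by
    have : ∑ n ∈ K, Complex.exp ((f n : ℂ) * Complex.I) =
        Complex.exp ((Φ : ℂ) * Complex.I) * ∑ n ∈ K, Complex.exp (((f n - Φ : ℝ) : ℂ) * Complex.I) := by
      rw [mul_sum]
      apply sum_congr rfl
      intro n _
      rw [← Complex.exp_add]
      congr 1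
      push_cast
      ring
    rw [this, norm_mul, Complex.norm_exp_ofReal_mul_I, one_mul]
  rw [h1]
  refine le_trans ?_ (Complex.re_le_norm _)
  rw [Complex.re_sum]
  have h2 : ∀ n ∈ K, (1 / 2 : ℝ) ≤ (Complex.exp (((f n - Φ : ℝ) : ℂ) * Complex.I)).re := by
    intro n hn
    rw [Complex.exp_ofReal_mul_I_re]
    obtain ⟨k, hk⟩ := h n hn
    have e : Real.cos (f n - Φ) = Real.cos (f n - Φ - 2 * Real.pi * k) := by
      have := Real.cos_sub_int_mul_two_pi (f n - Φ) k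
      rw [← this]
      congr 1
      ring
    rw [e]
    have h3 := Real.one_sub_sq_div_two_le_cos (x := f n - Φ - 2 * Real.pi * k)
    have h4 : (f n - Φ - 2 * Real.pi * k) ^ 2 ≤ 1 := by
      rw [← sq_abs]
      exact pow_le_one₀ (abs_nonneg _) hk
    linarith
  calc (K.card : ℝ) / 2 = ∑ n ∈ K, (1 / 2 : ℝ) := by
        rw [sum_const, nsmul_eq_mul]
        ring
    _ ≤ _ := sum_le_sum h2

/-- the clusters have constant phase -/
lemma cluster_large (I : Finset ℕ) (J m T t : ℕ) (c : ℕ × ℕ) (hc1 : 0 < c.1) (hc2 : c.2 < c.1)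
    (hm : 2 * (J + 1) ≤ m) (hT : 4 * T * (J + 1) ^ 2 ≤ m ^ 2) (ht : t ≤ T) (k0 : ℤ)
    (hk0 : |th m 0 t - k0| * (16 * ((J : ℝ) + 1)) ≤ 1) :
    ((KK I J m c).card : ℝ) / 2 ≤ ‖zz I J m c t‖ := by
  unfold zz ph
  apply norm_ge_of_phase (KK I J m c) (fun n => (t : ℝ) * Real.log n)
    ((t : ℝ) * (Real.log c.1 + Real.log m) + 2 * Real.pi * th m 0 t * ((c.2 : ℝ) / c.1))
  intro n hn
  unfold KK at hn
  rw [mem_filter] at hn
  obtain ⟨_, ⟨h1, h2⟩, h3⟩ := hn
  obtain ⟨j, hj⟩ : ∃ j, n / c.1 = m + j := Nat.exists_eq_add_of_le h1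
  have hjJ : j ≤ J := by omega
  have hn : n = c.1 * (m + j) + c.2 := by
    have := Nat.div_add_mod n c.1
    rw [hj, h3] at this
    exact this.symm
  have hs0 : (0 : ℝ) < c.1 := by exact_mod_cast hc1
  have hm0 : (0 : ℝ) < m := by exact_mod_cast (by omega : 0 < m)
  have hθ1 : (c.2 : ℝ) / c.1 ≤ 1 := by
    rw [div_le_one hs0]
    exact_mod_cast hc2.le
  have hθ0 : (0 : ℝ) ≤ (c.2 : ℝ) / c.1 := by positivity
  have hj0 : (0 : ℝ) ≤ j := Nat.cast_nonneg _
  have hjr : (j : ℝ) ≤ J := by exact_mod_cast hjJ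
  have hJ0 : (0 : ℝ) ≤ J := Nat.cast_nonneg _
  set θ : ℝ := (c.2 : ℝ) / c.1 with hθ
  set y : ℝ := ((j : ℝ) + θ) / m with hy
  have hy0 : 0 ≤ y := by positivity
  have hyJ : y ≤ ((J : ℝ) + 1) / m := by
    rw [hy]
    gcongr
  have hmr : 2 * ((J : ℝ) + 1) ≤ m := by exact_mod_cast hm
  have hy1 : y ≤ 1 / 2 := by
    refine hyJ.trans ?_
    rw [div_le_iff₀ hm0]
    linarith
  have hnr : (n : ℝ) = c.1 * (m * (1 + y)) := by
    rw [hn, hy, hθ]
    push_cast
    field_simp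
    ring
  have hlog : Real.log n = Real.log c.1 + (Real.log m + Real.log (1 + y)) := by
    rw [hnr, Real.log_mul hs0.ne' (by positivity), Real.log_mul hm0.ne' (by positivity)]
  have htay := log_taylor 1 y hy0 hy1
  rw [sum_range_one] at htay
  have htr : (t : ℝ) ≤ T := by exact_mod_cast ht
  have ht0 : (0 : ℝ) ≤ t := Nat.cast_nonneg _
  have he1 : |(t : ℝ) * Real.log (1 + y) - t * y| ≤ 1 / 2 := by
    rw [← mul_sub, abs_mul, abs_of_nonneg ht0]
    have h4 : |Real.log (1 + y) - y| ≤ 2 * y ^ 2 := by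
      refine le_trans (le_of_eq ?_) htay
      congr 1
      norm_num
    have h5 : y ^ 2 ≤ (((J : ℝ) + 1) / m) ^ 2 := pow_le_pow_left₀ hy0 hyJ 2
    have h6 : 4 * (T : ℝ) * ((J : ℝ) + 1) ^ 2 ≤ (m : ℝ) ^ 2 := by exact_mod_cast hT
    calc (t : ℝ) * |Real.log (1 + y) - y| ≤ T * (2 * (((J : ℝ) + 1) / m) ^ 2) := by
          apply mul_le_mul htr (h4.trans (by linarith)) (abs_nonneg _) (by positivity)
      _ = (4 * (T : ℝ) * ((J : ℝ) + 1) ^ 2) / (2 * (m : ℝ) ^ 2) := by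
          rw [div_pow]
          field_simp
          ring
      _ ≤ 1 / 2 := by
          rw [div_le_iff₀ (by positivity)]
          linarith
  have hty : (t : ℝ) * y = 2 * Real.pi * th m 0 t * (j + θ) := by
    unfold th
    rw [hy]
    have := Real.pi_pos
    push_cast
    field_simp
    ring
  have he2 : |2 * Real.pi * th m 0 t * j - 2 * Real.pi * ((k0 * j : ℤ) : ℝ)| ≤ 1 / 2 := by
    have hpi := Real.pi_pos
    have hpi4 : Real.pi < 3.15 := Real.pi_lt_d2
    have h4 : 2 * Real.pi * th m 0 t * j - 2 * Real.pi * ((k0 * j : ℤ) : ℝ) =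
        2 * Real.pi * ((th m 0 t - k0) * j) := by
      push_cast
      ring
    rw [h4, abs_mul, abs_of_pos (by positivity), abs_mul, abs_of_nonneg hj0]
    have h5 : |th m 0 t - k0| * j ≤ 1 / 16 := by
      have h6 : |th m 0 t - k0| * j ≤ |th m 0 t - k0| * ((J : ℝ) + 1) := by
        apply mul_le_mul_of_nonneg_left _ (abs_nonneg _)
        linarith
      linarith
    calc 2 * Real.pi * (|th m 0 t - k0| * j) ≤ 2 * Real.pi * (1 / 16) := by gcongr
      _ ≤ 1 / 2 := by linarith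
  refine ⟨k0 * j, ?_⟩
  have e : (t : ℝ) * Real.log n - ((t : ℝ) * (Real.log c.1 + Real.log m) + 2 * Real.pi * th m 0 t * θ) -
      2 * Real.pi * ((k0 * j : ℤ) : ℝ) = ((t : ℝ) * Real.log (1 + y) - t * y) +
        (2 * Real.pi * th m 0 t * j - 2 * Real.pi * ((k0 * j : ℤ) : ℝ)) := by
    rw [hlog, hty]
    ring
  rw [e]
  calc _ ≤ |(t : ℝ) * Real.log (1 + y) - t * y| +
        |2 * Real.pi * th m 0 t * j - 2 * Real.pi * ((k0 * j : ℤ) : ℝ)| := abs_add_le _ _
    _ ≤ 1 / 2 + 1 / 2 := add_le_add he1 he2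
    _ = 1 := by norm_num

/-- **Core**: on every support `I` -/
theorem core (N S J T : ℕ) (I : Finset ℕ) (hI : I ⊆ Icc N (2 * N)) (hI0 : I.Nonempty) (hS : 1 ≤ S) (hJ : 1 ≤ J)
    (h1 : 8 * S ^ 2 * (J + 1) ≤ N) (h2 : 64 * S ^ 2 * T * (J + 1) ^ 2 ≤ N ^ 2) :
    ∃ (b : ℕ → ℝ) (W : Finset ℕ) (G : ℕ), (∀ n, b n = 0 ∨ b n = 1 ∨ b n = -1) ∧ (∀ n, n ∉ I → b n = 0) ∧
      (∑ n ∈ Icc N (2 * N), b n ^ 2 = G) ∧ I.card * S ^ 2 * (J + 1) ≤ 3 * N * G ∧
      (∀ t ∈ W, t ≤ T ∧ (G : ℝ) ^ 2 ≤ 16 * (S : ℝ) ^ 2 * ‖∑ n ∈ Icc N (2 * N), (b n : ℂ) * ph t n‖ ^ 2) ∧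
      T + 1 ≤ 192 * (J + 1) * W.card := by
  classical
  obtain ⟨m, hm⟩ := exists_m N S J I hI hS hJ h1
  have hG0 : 0 < (EE I S J m).card := by
    have h3 : 0 < I.card * S * (J + 1) := by
      have := card_pos.2 hI0
      positivity
    have h4 := lt_of_lt_of_le h3 hm
    exact Nat.pos_of_mul_pos_right (by rwa [mul_comm] at h4) |> fun h => by
      rcases Nat.eq_zero_or_pos (EE I S J m).card with h5 | h5
      · rw [h5, zero_mul] at h4; omega
      · exact h5
  -- the lower bound for `m`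
  have hmlow : N ≤ 2 * S * (m + J + 1) := by
    obtain ⟨p, hp⟩ := card_pos.1 hG0
    unfold EE at hp
    rw [mem_filter, mem_product, mem_Ico] at hp
    obtain ⟨⟨hp1, hp2, hp3⟩, hp4, hp5⟩ := hp
    have hn := mem_Icc.1 (hI hp1)
    have h3 := Nat.lt_mul_div_succ p.1 (show 0 < p.2 by omega)
    calc N ≤ p.1 := hn.1
      _ ≤ p.2 * (p.1 / p.2 + 1) := h3.le
      _ ≤ 2 * S * (m + J + 1) := Nat.mul_le_mul (by omega) (by omega)
  have hm4 : N ≤ 4 * S * m := by
    have h3 : 4 * S * (J + 1) ≤ N := by nlinarith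
    nlinarith
  have hm5 : 2 * S * (J + 1) ≤ m := by
    by_contra hc
    push Not at hc
    have h3 : 4 * S * m < 4 * S * (2 * S * (J + 1)) := Nat.mul_lt_mul_of_pos_left hc (by omega)
    nlinarith
  have hm6 : 2 * (J + 1) ≤ m := le_trans (by nlinarith) hm5
  have hmT : 4 * T * (J + 1) ^ 2 ≤ m ^ 2 := by
    have h3 : N ^ 2 ≤ (4 * S * m) ^ 2 := Nat.pow_le_pow_left hm4 2
    have h4 : 16 * S ^ 2 * (4 * T * (J + 1) ^ 2) ≤ 16 * S ^ 2 * m ^ 2 := by nlinarith
    exact Nat.le_of_mul_le_mul_left h4 (by positivity)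
  -- the points
  obtain ⟨W0, hW1, hW2⟩ := pigeon 1 (J + 1) m T (by omega) 16 (by norm_num)
  obtain ⟨u, hu⟩ := exists_signs (CC S) W0 (fun c t => zz I J m c (t : ℝ))
  refine ⟨co I S J m u, W0.filter (fun t => (∑ c ∈ CC S, ‖zz I J m c (t : ℝ)‖ ^ 2) / 2 ≤
    ‖∑ c ∈ CC S, (sg u c : ℂ) * zz I J m c (t : ℝ)‖ ^ 2), (EE I S J m).card,
    fun n => (co_cases I S J m u n hm5).1, fun n hn => co_off I S J m u n hn,
    sum_co_sq N I hI S J m u hm5, ?_, ?_, ?_⟩
  · have h3 : 2 * N / S + 1 ≤ 3 * N / S := by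
      rw [Nat.le_div_iff_mul_le (by omega)]
      have h4 := Nat.div_mul_le_self (2 * N) S
      have h5 : S ≤ N := by nlinarith
      calc (2 * N / S + 1) * S = 2 * N / S * S + S := by ring
        _ ≤ 2 * N + N := by omega
        _ = 3 * N := by ring
    calc I.card * S ^ 2 * (J + 1) = (I.card * S * (J + 1)) * S := by ring
      _ ≤ ((EE I S J m).card * (2 * N / S + 1)) * S := Nat.mul_le_mul_right _ hm
      _ ≤ ((EE I S J m).card * (3 * N / S)) * S := Nat.mul_le_mul_right _ (Nat.mul_le_mul_left _ h3)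
      _ = (EE I S J m).card * (3 * N / S * S) := by ring
      _ ≤ (EE I S J m).card * (3 * N) := Nat.mul_le_mul_left _ (Nat.div_mul_le_self _ _)
      _ = 3 * N * (EE I S J m).card := by ring
  · intro t ht
    obtain ⟨ht1, ht2⟩ := mem_filter.1 ht
    obtain ⟨htT, k, hk⟩ := hW1 t ht1
    refine ⟨htT, ?_⟩
    rw [D_eq N I hI S J m u t]
    have hk0 := hk 0
    have h3 : ∀ c ∈ CC S, ((KK I J m c).card : ℝ) / 2 ≤ ‖zz I J m c (t : ℝ)‖ := by
      intro c hc
      unfold CC at hc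
      rw [mem_product, mem_Ico, mem_range] at hc
      by_cases hc2 : c.2 < c.1
      · apply cluster_large I J m T t c (by omega) hc2 hm6 hmT htT (k 0)
        simpa using hk0
      · have h4 : KK I J m c = ∅ := by
          unfold KK
          apply filter_eq_empty_iff.2
          intro n _ h5
          have := Nat.mod_lt n (show 0 < c.1 by omega)
          omega
        rw [h4]
        simp
    have h4 : ((EE I S J m).card : ℝ) ^ 2 ≤ (CC S).card * ∑ c ∈ CC S, ((KK I J m c).card : ℝ) ^ 2 := by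
      rw [← sum_KK]
      have := sum_mul_sq_le_sq_mul_sq (CC S) (fun _ => (1 : ℝ)) (fun c => ((KK I J m c).card : ℝ))
      simpa using this
    have h5 : ((CC S).card : ℝ) = 2 * (S : ℝ) ^ 2 := by
      unfold CC
      rw [card_product, Nat.card_Ico, card_range]
      have : 2 * S - S = S := by omega
      rw [this]
      push_cast
      ring
    have h6 : ∑ c ∈ CC S, ((KK I J m c).card : ℝ) ^ 2 ≤ 4 * ∑ c ∈ CC S, ‖zz I J m c (t : ℝ)‖ ^ 2 := by
      rw [mul_sum]
      apply sum_le_sum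
      intro c hc
      have := pow_le_pow_left₀ (by positivity) (h3 c hc) 2
      rw [div_pow] at this
      linarith
    rw [h5] at h4
    have hS2 : (0 : ℝ) ≤ 2 * (S : ℝ) ^ 2 := by positivity
    have h7 := mul_le_mul_of_nonneg_left h6 hS2
    have h8 := mul_le_mul_of_nonneg_left ht2 (by positivity : (0 : ℝ) ≤ 16 * (S : ℝ) ^ 2)
    linarith
  · have h3 : (T : ℝ) + 1 ≤ (W0.card : ℝ) * (16 * ((J : ℝ) + 1)) := by
      have := hW2
      simpa using this
    have h4 : (T : ℝ) + 1 ≤ 192 * ((J : ℝ) + 1) * ((W0.filter (fun t : ℕ => (∑ c ∈ CC S, ‖zz I J m c (t : ℝ)‖ ^ 2) / 2 ≤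
        ‖∑ c ∈ CC S, (sg u c : ℂ) * zz I J m c (t : ℝ)‖ ^ 2)).card : ℝ) := by
      have h5 : (0 : ℝ) < 16 * ((J : ℝ) + 1) := by positivity
      have h6 := mul_le_mul_of_nonneg_right hu h5.le
      linarith
    exact_mod_cast h4

end Pool.Agent.Q261.DQ
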