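import Pool.Agent.Q261.DQ.Core

set_option autoImplicit false

namespace Pool.Agent.Q261.DQ

open Finset Filter Pool.Agent.Q261.DP

lemma ev_pow (C a : ℝ) (ha : 0 < a) : ∀ᶠ N : ℕ in atTop, C ≤ (N : ℝ) ^ a :=
  ((tendsto_rpow_atTop ha).comp tendsto_natCast_atTop_atTop).eventually (eventually_ge_atTop C)

/-- coefficients with `|b_n| ≤ N^lam`, `∑ |b_n|² ≤ N` and many values of the size `N^((1+κ)/2)` -/
theorem params (κ η lam : ℝ) (hκ : 0 < κ) (hη : 0 ≤ η) (h1 : κ + (1 + η) / 2 < 1)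
    (h2 : (κ + η) / 2 < lam) :
    ∀ᶠ N : ℕ in atTop, ∃ (b : ℕ → ℝ) (W : Finset ℕ),
      (∀ n, |b n| ≤ (N : ℝ) ^ lam) ∧ (∑ n ∈ Icc N (2 * N), b n ^ 2 ≤ N) ∧
      (∀ t ∈ W, 1 ≤ t ∧ t ≤ ⌊(N : ℝ) ^ (1 + η)⌋₊ ∧
        (N : ℝ) ^ (1 + κ) / 48 ≤ ‖∑ n ∈ Icc N (2 * N), (b n : ℂ) * ph t n‖ ^ 2) ∧
      (⌊(N : ℝ) ^ (1 + η)⌋₊ : ℝ) ≤ 1200 * (N : ℝ) ^ κ * W.card := by
  classical
  obtain ⟨ω, hω⟩ : ∃ ω : ℝ, ω = min ((1 - κ - (1 + η) / 2) / 2) ((2 * lam - (κ + η)) / 4) := ⟨_, rfl⟩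
  have hω0 : 0 < ω := by
    rw [hω]
    apply lt_min <;> linarith
  have hω1 : ω ≤ (1 - κ - (1 + η) / 2) / 2 := by rw [hω]; exact min_le_left _ _
  have hω2 : ω ≤ (2 * lam - (κ + η)) / 4 := by rw [hω]; exact min_le_right _ _
  obtain ⟨s, hs⟩ : ∃ s : ℝ, s = 1 - κ - (1 + η) / 2 - ω := ⟨_, rfl⟩
  have hs0 : 0 < s := by rw [hs]; linarith
  filter_upwards [ev_pow 24 (κ + η + 2 * ω) (by linarith), ev_pow 576 (2 * ω) (by linarith),
    ev_pow 12 (2 * lam - (κ + η) - 2 * ω) (by linarith), ev_pow 1152 (1 + η - κ) (by linarith),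
    ev_pow 2 s hs0, eventually_ge_atTop 1] with N e1 e2 e3 e4 e5 hN1
  have hNr : (1 : ℝ) ≤ N := by exact_mod_cast hN1
  have hN0 : (0 : ℝ) < N := by linarith
  have pw : ∀ a b : ℝ, (N : ℝ) ^ a * (N : ℝ) ^ b = (N : ℝ) ^ (a + b) := fun a b =>
    (Real.rpow_add hN0 a b).symm
  have pwn : ∀ (a : ℝ) (k : ℕ), ((N : ℝ) ^ a) ^ k = (N : ℝ) ^ (a * k) := fun a k => by
    rw [← Real.rpow_natCast, ← Real.rpow_mul hN0.le]
  have pos : ∀ a : ℝ, 0 < (N : ℝ) ^ a := fun a => Real.rpow_pos_of_pos hN0 a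
  have mono : ∀ a b : ℝ, a ≤ b → (N : ℝ) ^ a ≤ (N : ℝ) ^ b := fun a b h =>
    Real.rpow_le_rpow_of_exponent_le hNr h
  set J : ℕ := ⌈(N : ℝ) ^ κ⌉₊ with hJ
  set S : ℕ := ⌊(N : ℝ) ^ s⌋₊ with hS
  set T : ℕ := ⌊(N : ℝ) ^ (1 + η)⌋₊ with hT
  have hJ1 : (N : ℝ) ^ κ ≤ J := Nat.le_ceil _
  have hκ1 : (1 : ℝ) ≤ (N : ℝ) ^ κ := by
    have := mono 0 κ hκ.le
    rwa [Real.rpow_zero] at this
  have hJ2 : (J : ℝ) + 1 ≤ 3 * (N : ℝ) ^ κ := by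
    have := Nat.ceil_lt_add_one (pos κ).le
    linarith
  have hS1 : (S : ℝ) ≤ (N : ℝ) ^ s := Nat.floor_le (pos s).le
  have hS2 : (N : ℝ) ^ s ≤ 2 * S := by
    have := Nat.lt_floor_add_one ((N : ℝ) ^ s)
    rw [← hS] at this
    linarith
  have hT1 : (T : ℝ) ≤ (N : ℝ) ^ (1 + η) := Nat.floor_le (pos _).le
  have hT2 : (N : ℝ) ^ (1 + η) < T + 1 := Nat.lt_floor_add_one _
  have hJn : 1 ≤ J := by
    have : (1 : ℝ) ≤ J := hκ1.trans hJ1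
    exact_mod_cast this
  have hSn : 1 ≤ S := by
    have : (1 : ℝ) ≤ S := by linarith
    exact_mod_cast this
  have hSr : (1 : ℝ) ≤ S := by exact_mod_cast hSn
  have hSS : (S : ℝ) ^ 2 ≤ (N : ℝ) ^ (2 * s) := by
    calc (S : ℝ) ^ 2 ≤ ((N : ℝ) ^ s) ^ 2 := pow_le_pow_left₀ (by positivity) hS1 2
      _ = _ := by rw [pwn]; congr 1; push_cast; ring
  have hc1 : 8 * S ^ 2 * (J + 1) ≤ N := by
    have h3 : (8 : ℝ) * (S : ℝ) ^ 2 * (J + 1) ≤ N := by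
      calc (8 : ℝ) * (S : ℝ) ^ 2 * (J + 1) ≤ 8 * (N : ℝ) ^ (2 * s) * (3 * (N : ℝ) ^ κ) := by gcongr
        _ = 24 * ((N : ℝ) ^ (2 * s) * (N : ℝ) ^ κ) := by ring
        _ ≤ (N : ℝ) ^ (κ + η + 2 * ω) * ((N : ℝ) ^ (2 * s) * (N : ℝ) ^ κ) := by gcongr
        _ = N := by
            rw [pw, pw, hs]
            nth_rewrite 2 [← Real.rpow_one (N : ℝ)]
            congr 1
            ring
    exact_mod_cast h3
  have hc2 : 64 * S ^ 2 * T * (J + 1) ^ 2 ≤ N ^ 2 := by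
    have h3 : (64 : ℝ) * (S : ℝ) ^ 2 * T * (J + 1) ^ 2 ≤ (N : ℝ) ^ 2 := by
      calc (64 : ℝ) * (S : ℝ) ^ 2 * T * (J + 1) ^ 2 ≤
            64 * (N : ℝ) ^ (2 * s) * (N : ℝ) ^ (1 + η) * (3 * (N : ℝ) ^ κ) ^ 2 := by gcongr
        _ = 576 * ((N : ℝ) ^ (2 * s) * (N : ℝ) ^ (1 + η) * ((N : ℝ) ^ κ) ^ 2) := by ring
        _ ≤ (N : ℝ) ^ (2 * ω) * ((N : ℝ) ^ (2 * s) * (N : ℝ) ^ (1 + η) * ((N : ℝ) ^ κ) ^ 2) := by gcongr
        _ = (N : ℝ) ^ (2 : ℝ) := by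
            rw [pwn, pw, pw, pw, hs]
            congr 1
            push_cast
            ring
        _ = (N : ℝ) ^ 2 := by norm_num
    exact_mod_cast h3
  obtain ⟨b0, W0, G, hb1, hb2, hb3, hG1, hW1, hW2⟩ := core N S J T (Icc N (2 * N)) (Subset.refl _)
    ⟨N, mem_Icc.2 ⟨le_refl _, by omega⟩⟩ hSn hJn hc1 hc2
  have hIc : (Icc N (2 * N)).card = N + 1 := by rw [Nat.card_Icc]; omega
  rw [hIc] at hG1
  have hGr : (S : ℝ) ^ 2 * (J + 1) ≤ 3 * G := by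
    have h3 : ((N : ℝ) + 1) * (S : ℝ) ^ 2 * (J + 1) ≤ 3 * N * G := by exact_mod_cast hG1
    have h4 : (N : ℝ) * ((S : ℝ) ^ 2 * (J + 1)) ≤ N * (3 * G) := by
      have : 0 ≤ (S : ℝ) ^ 2 * ((J : ℝ) + 1) := by positivity
      linarith
    exact le_of_mul_le_mul_left h4 hN0
  have hG0 : (0 : ℝ) < G := by
    have : 0 < (S : ℝ) ^ 2 * ((J : ℝ) + 1) := by positivity
    linarith
  set β2 : ℝ := N / G with hβ2
  have hβ2p : 0 < β2 := by positivity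
  set β : ℝ := Real.sqrt β2 with hβ
  have hβsq : β ^ 2 = β2 := Real.sq_sqrt hβ2p.le
  have hβle : β2 ≤ ((N : ℝ) ^ lam) ^ 2 := by
    have h3 : (N : ℝ) ^ (2 * s) * (N : ℝ) ^ κ ≤ 12 * G := by
      calc (N : ℝ) ^ (2 * s) * (N : ℝ) ^ κ = ((N : ℝ) ^ s) ^ 2 * (N : ℝ) ^ κ := by
            rw [pwn]; congr 2; push_cast; ring
        _ ≤ (2 * (S : ℝ)) ^ 2 * (J + 1) := by
            gcongr
            linarith
        _ = 4 * ((S : ℝ) ^ 2 * (J + 1)) := by ring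
        _ ≤ 12 * G := by linarith
    rw [hβ2, div_le_iff₀ hG0]
    have h4 : 12 * (N : ℝ) ≤ 12 * (((N : ℝ) ^ lam) ^ 2 * G) := by
      calc 12 * (N : ℝ) ≤ (N : ℝ) ^ (2 * lam - (κ + η) - 2 * ω) * (N : ℝ) ^ (1 : ℝ) := by
            rw [Real.rpow_one]
            gcongr
        _ = ((N : ℝ) ^ lam) ^ 2 * ((N : ℝ) ^ (2 * s) * (N : ℝ) ^ κ) := by
            rw [pwn, pw, pw, pw, hs]
            congr 1
            push_cast
            ring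
        _ ≤ ((N : ℝ) ^ lam) ^ 2 * (12 * G) := by gcongr
        _ = _ := by ring
    linarith
  have hβle' : β ≤ (N : ℝ) ^ lam := by
    rw [hβ]
    exact Real.sqrt_le_iff.2 ⟨(pos _).le, hβle⟩
  have hβ0 : 0 ≤ β := Real.sqrt_nonneg _
  refine ⟨fun n => β * b0 n, W0.erase 0, ?_, ?_, ?_, ?_⟩
  · intro n
    simp only
    rw [abs_mul, abs_of_nonneg hβ0]
    have : |b0 n| ≤ 1 := by
      rcases hb1 n with h | h | h <;> rw [h] <;> norm_num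
    calc β * |b0 n| ≤ β * 1 := by gcongr
      _ ≤ _ := by rw [mul_one]; exact hβle'
  · have h3 : ∑ n ∈ Icc N (2 * N), (β * b0 n) ^ 2 = β2 * G := by
      rw [← hb3, mul_sum]
      apply sum_congr rfl
      intro n _
      rw [mul_pow, hβsq]
    simp only
    rw [h3, hβ2, div_mul_cancel₀ _ hG0.ne']
  · intro t ht
    rw [mem_erase] at ht
    obtain ⟨h3, h4⟩ := hW1 t ht.2
    refine ⟨by omega, h3, ?_⟩
    have h5 : ∑ n ∈ Icc N (2 * N), ((β * b0 n : ℝ) : ℂ) * ph t n =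
        (β : ℂ) * ∑ n ∈ Icc N (2 * N), (b0 n : ℂ) * ph t n := by
      rw [mul_sum]
      apply sum_congr rfl
      intro n _
      push_cast
      ring
    simp only
    rw [h5, norm_mul, mul_pow, Complex.norm_real, Real.norm_eq_abs, sq_abs, hβsq]
    have h6 : (G : ℝ) ^ 2 / (16 * (S : ℝ) ^ 2) ≤ ‖∑ n ∈ Icc N (2 * N), (b0 n : ℂ) * ph t n‖ ^ 2 := by
      rw [div_le_iff₀ (by positivity)]
      linarith
    calc (N : ℝ) ^ (1 + κ) / 48 = N * (N : ℝ) ^ κ / 48 := by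
          rw [Real.rpow_add hN0, Real.rpow_one]
      _ ≤ N * (J + 1) / 48 := by
          gcongr
          linarith
      _ ≤ β2 * ((G : ℝ) ^ 2 / (16 * (S : ℝ) ^ 2)) := by
          rw [hβ2]
          have h7 : (N : ℝ) / G * ((G : ℝ) ^ 2 / (16 * (S : ℝ) ^ 2)) = N * G / (16 * (S : ℝ) ^ 2) := by
            field_simp
          rw [h7, div_le_div_iff₀ (by norm_num) (by positivity)]
          nlinarith
      _ ≤ _ := by gcongr
  · have h3 : (T : ℝ) + 1 ≤ 192 * (J + 1) * W0.card := by exact_mod_cast hW2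
    have h4 : (T : ℝ) + 1 ≤ 576 * (N : ℝ) ^ κ * W0.card := by
      refine h3.trans ?_
      have : (0 : ℝ) ≤ W0.card := Nat.cast_nonneg _
      nlinarith
    have h5 : 1152 * (N : ℝ) ^ κ ≤ (N : ℝ) ^ (1 + η) := by
      calc 1152 * (N : ℝ) ^ κ ≤ (N : ℝ) ^ (1 + η - κ) * (N : ℝ) ^ κ := by gcongr
        _ = _ := by rw [pw]; congr 1; ring
    have h6 : (2 : ℝ) ≤ W0.card := by
      have h7 : 1152 * (N : ℝ) ^ κ ≤ 576 * (N : ℝ) ^ κ * W0.card := by linarith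
      have h8 : (576 * (N : ℝ) ^ κ) * 2 ≤ (576 * (N : ℝ) ^ κ) * W0.card := by linarith
      exact le_of_mul_le_mul_left h8 (by positivity)
    have h7 : (W0.card : ℝ) ≤ 2 * (W0.erase 0).card := by
      have h8 : W0.card ≤ (W0.erase 0).card + 1 := by
        have := pred_card_le_card_erase (s := W0) (a := 0)
        omega
      have h9 : (W0.card : ℝ) ≤ (W0.erase 0).card + 1 := by exact_mod_cast h8
      linarith
    have hk : 0 < (N : ℝ) ^ κ := pos κ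
    have h8 : 576 * (N : ℝ) ^ κ * W0.card ≤ 576 * (N : ℝ) ^ κ * (2 * (W0.erase 0).card) := by gcongr
    have h9 : 0 ≤ (N : ℝ) ^ κ * ((W0.erase 0).card : ℝ) := by positivity
    nlinarith

end Pool.Agent.Q261.DQ
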